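import Pool.Agent.Y268.D3.Stm

/-!
# Project D3, piece ISON: the structure theorem for forms constant on unitary matrices
-/

set_option autoImplicit false

open scoped ComplexOrder InnerProductSpace ComplexConjugate Topology
open Finset Filter

noncomputable section

namespace Pool.Agent.Y925.D3

open Y268.D3 H759R2.Kad H711R2.KG

/-! ### Means -/

theorem mean_conj (hr : S_real) {S : Type} (E : Mean S) (g : S → ℂ) (C : ℝ)
    (hb : ∀ s, ‖g s‖ ≤ C) : E.E (fun s => conj (g s)) = conj (E.E g) :=
  ((hr S E).2 g C hb).1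

theorem mean_pos (hr : S_real) {S : Type} (E : Mean S) (g : S → ℂ) (C : ℝ)
    (hb : ∀ s, ‖g s‖ ≤ C) (h : ∀ s, 0 ≤ (g s).re) : 0 ≤ (E.E g).re := by
  have h1 := ((hr S E).2 g C hb).2
  have h2 := ((hr S E).1 (fun s => (g s).re) C (fun s => (Complex.abs_re_le_norm _).trans (hb s))).2 h
  rw [h1] at h2
  simpa using h2

/-! ### Cauchy-Schwarz -/

/-- hermitian positive semidefinite forms -/
structure Psd {B : Type} [AddCommGroup B] [Module ℂ B] (F : B → B → ℂ) : Prop where
  add : ∀ x y z, F x (y + z) = F x y + F x z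
  smul : ∀ (c : ℂ) x y, F x (c • y) = c * F x y
  herm : ∀ x y, F y x = conj (F x y)
  pos : ∀ x, 0 ≤ (F x x).re

theorem Psd.add_left {B : Type} [AddCommGroup B] [Module ℂ B] {F : B → B → ℂ} (h : Psd F)
    (x y z : B) : F (x + y) z = F x z + F y z := by
  rw [h.herm z (x + y), h.add, map_add, ← h.herm, ← h.herm]

theorem Psd.smul_left {B : Type} [AddCommGroup B] [Module ℂ B] {F : B → B → ℂ} (h : Psd F)
    (c : ℂ) (x y : B) : F (c • x) y = conj c * F x y := by
  rw [h.herm y (c • x), h.smul, map_mul, ← h.herm]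

theorem Psd.cs {B : Type} [AddCommGroup B] [Module ℂ B] {F : B → B → ℂ} (h : Psd F)
    (x y : B) : ‖F x y‖ ≤ √(F x x).re * √(F y y).re := by
  let core : PreInnerProductSpace.Core ℂ B :=
    { inner := F
      conj_inner_symm := fun x y => (h.herm y x).symm
      re_inner_nonneg := fun x => h.pos x
      add_left := fun x y z => h.add_left x y z
      smul_left := fun x y r => h.smul_left r x y }
  have h1 := @InnerProductSpace.Core.inner_mul_inner_self_le ℂ B _ _ _ core x y
  have h2 : ‖F x y‖ * ‖F y x‖ ≤ (F x x).re * (F y y).re := h1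
  have h3 : ‖F y x‖ = ‖F x y‖ := by
    rw [h.herm x y]
    exact RCLike.norm_conj _
  rw [h3, ← sq] at h2
  rw [← Real.sqrt_mul (h.pos x)]
  exact Real.le_sqrt_of_sq_le h2

/-! ### Left invariance -/

theorem left_inv (hd : S_doubling) (B : Type) [CStarAlgebra B] [PartialOrder B]
    [StarOrderedRing B] (τ : B →ₗ[ℂ] ℂ) (hτ : IsTracialState τ) (E : Mean (unitary B))
    (hdl : ∀ (φ : B →L[ℂ] ℂ) (y : B),
      E.E (fun v => φ (star (v : B) * y * (v : B))) = τ y * φ 1)
    (hdr : ∀ (φ : B →L[ℂ] ℂ) (y : B),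
      E.E (fun v => φ ((v : B) * y * star (v : B))) = τ y * φ 1)
    (F : B → B → ℂ) (hF : Psd F) (n : ℂ) (hn : ∀ v : unitary B, F v v = n) (D : ℝ)
    (hD : ∀ y, (F y y).re ≤ D * (τ (star y * y)).re)
    (lam : unitary B → (B →L[ℂ] ℂ)) (C : ℝ) (hC : ∀ a, ‖lam a‖ ≤ C)
    (hinv : ∀ (a : unitary B) (y y' : B),
      F ((a : B) * y) ((a : B) * y') = F y y' + lam a (y' * star y))
    (hmean : ∀ z, E.E (fun h => lam h z) = 0) :
    ∀ (a : unitary B) (y y' : B), F ((a : B) * y) ((a : B) * y') = F y y' := by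
  have hlam : ∀ (a : unitary B) (z : B), lam a z = F a ((a : B) * z) - F 1 z := by
    intro a z
    have h1 := hinv a 1 z
    rw [mul_one, star_one, mul_one] at h1
    rw [h1]
    ring
  have hn1 : F 1 1 = n := by
    have := hn 1
    simpa using this
  have hτ0 : ∀ z : B, 0 ≤ (τ (star z * z)).re := fun z => (Complex.le_def.1 (hτ.pos z)).1
  have hsq : ∀ z : B, √(F z z).re ≤ √D * √(τ (star z * z)).re := by
    intro z
    rw [← Real.sqrt_mul' D (hτ0 z)]
    exact Real.sqrt_le_sqrt (hD z)
  have key := hd B τ hτ E hdl hdr lam (2 * √n.re * √D) C hC ?_ ?_ ?_ hmean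
  · intro a y y'
    rw [hinv, key, add_zero]
  · intro a z
    rw [hlam]
    have h1 := hF.cs (a : B) ((a : B) * z)
    have h2 := hF.cs 1 z
    rw [hn] at h1
    rw [hn1] at h2
    have h3 := hsq ((a : B) * z)
    have h4 : star ((a : B) * z) * ((a : B) * z) = star z * z := by
      rw [star_mul, mul_assoc, ← mul_assoc (star (a : B)), Unitary.coe_star_mul_self, one_mul]
    rw [h4] at h3
    have h5 := hsq z
    have h6 : 0 ≤ √n.re := Real.sqrt_nonneg _
    calc ‖F a ((a : B) * z) - F 1 z‖ ≤ ‖F a ((a : B) * z)‖ + ‖F 1 z‖ := norm_sub_le _ _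
      _ ≤ √n.re * (√D * √(τ (star z * z)).re) + √n.re * (√D * √(τ (star z * z)).re) :=
        add_le_add (h1.trans (mul_le_mul_of_nonneg_left h3 h6))
          (h2.trans (mul_le_mul_of_nonneg_left h5 h6))
      _ = 2 * √n.re * √D * √(τ (star z * z)).re := by ring
  · intro a
    rw [hlam, mul_one, hn, hn1, sub_self]
  · intro a b z
    have h1 : ((a * b : unitary B) : B) = (a : B) * (b : B) := rfl
    rw [hlam (a * b), hlam b, h1]
    have h2 := hinv a (b : B) ((b : B) * z)
    rw [mul_assoc, h2]
    ring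

theorem norm_one_le (B : Type) [CStarAlgebra B] : ‖(1 : B)‖ ≤ 1 := by
  rcases subsingleton_or_nontrivial B with h | h
  · rw [Subsingleton.elim (1 : B) 0, norm_zero]
    exact zero_le_one
  · exact CStarRing.norm_one.le

/-- two conjugate linear functions which agree at the unitaries agree -/
theorem ext_unitary (B : Type) [CStarAlgebra B] (p q : B → ℂ)
    (hpa : ∀ x y, p (x + y) = p x + p y) (hps : ∀ (c : ℂ) x, p (c • x) = conj c * p x)
    (hqa : ∀ x y, q (x + y) = q x + q y) (hqs : ∀ (c : ℂ) x, q (c • x) = conj c * q x)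
    (h : ∀ v : unitary B, p v = q v) (y : B) : p y = q y := by
  have hy : y ∈ Submodule.span ℂ (unitary B : Set B) := by
    rw [CStarAlgebra.span_unitary]
    exact Submodule.mem_top
  induction hy using Submodule.span_induction with
  | mem x hx => exact h ⟨x, hx⟩
  | zero =>
    have h1 := hps 0 0
    have h2 := hqs 0 0
    rw [zero_smul, map_zero, zero_mul] at h1 h2
    rw [h1, h2]
  | add x y _ _ hx hy => rw [hpa, hqa, hx, hy]
  | smul c x _ hx => rw [hps, hqs, hx]

/-- the average of bounded functionals -/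
def avg {B : Type} [CStarAlgebra B] (E : Mean (unitary B)) (lam : unitary B → (B →L[ℂ] ℂ))
    (C : ℝ) (h : ∀ a, ‖lam a‖ ≤ C) : B →L[ℂ] ℂ :=
  LinearMap.mkContinuous
    { toFun := fun z => E.E (fun a => lam a z)
      map_add' := fun x y => by
        rw [← E.add']
        congr 1
        ext a
        exact map_add _ _ _
      map_smul' := fun c x => by
        rw [RingHom.id_apply, smul_eq_mul, ← E.const_mul]
        congr 1
        ext a
        rw [map_smul, smul_eq_mul] } C
    (fun z => E.bd _ _ fun a => (lam a).le_of_opNorm_le (h a) z)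

theorem avg_apply {B : Type} [CStarAlgebra B] (E : Mean (unitary B))
    (lam : unitary B → (B →L[ℂ] ℂ)) (C : ℝ) (h : ∀ a, ‖lam a‖ ≤ C) (z : B) :
    avg E lam C h z = E.E (fun a => lam a z) := rfl

theorem avg_norm {B : Type} [CStarAlgebra B] (E : Mean (unitary B))
    (lam : unitary B → (B →L[ℂ] ℂ)) (C : ℝ) (hC : 0 ≤ C) (h : ∀ a, ‖lam a‖ ≤ C) :
    ‖avg E lam C h‖ ≤ C := LinearMap.mkContinuous_norm_le _ hC _

theorem norm_ad {B : Type} [CStarAlgebra B] (a : unitary B) (z : B) :
    ‖(a : B) * z * star (a : B)‖ = ‖z‖ := by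
  have h : star (a : B) = ((star a : unitary B) : B) := rfl
  rw [h, CStarRing.norm_mul_coe_unitary, CStarRing.norm_coe_unitary_mul]

/-- a functional composed with a unitary conjugation -/
def adF {B : Type} [CStarAlgebra B] (φ : B →L[ℂ] ℂ) (a : unitary B) : B →L[ℂ] ℂ :=
  LinearMap.mkContinuous
    { toFun := fun z => φ ((a : B) * z * star (a : B))
      map_add' := fun x y => by
        rw [mul_add, add_mul, map_add]
      map_smul' := fun c x => by
        rw [mul_smul_comm, smul_mul_assoc, map_smul, RingHom.id_apply] } ‖φ‖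
    (fun z => by
      have h := φ.le_opNorm ((a : B) * z * star (a : B))
      rwa [norm_ad] at h)

theorem adF_apply {B : Type} [CStarAlgebra B] (φ : B →L[ℂ] ℂ) (a : unitary B) (z : B) :
    adF φ a z = φ ((a : B) * z * star (a : B)) := rfl

theorem adF_norm {B : Type} [CStarAlgebra B] (φ : B →L[ℂ] ℂ) (a : unitary B) :
    ‖adF φ a‖ ≤ ‖φ‖ := LinearMap.mkContinuous_norm_le _ (norm_nonneg _) _

/-- the functional `f 1` -/
def fone {B : Type} [CStarAlgebra B] {f : B → B → ℂ} {C : ℝ} (hf : IsFormB f C) : B →L[ℂ] ℂ :=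
  LinearMap.mkContinuous
    { toFun := fun z => f 1 z
      map_add' := fun x y => hf.add 1 x y
      map_smul' := fun c x => hf.smul c 1 x } (C * ‖(1 : B)‖)
    (fun z => hf.bd 1 z)

theorem fone_apply {B : Type} [CStarAlgebra B] {f : B → B → ℂ} {C : ℝ} (hf : IsFormB f C)
    (z : B) : fone hf z = f 1 z := rfl

/-- the cocycles of a form that is constant on the unitary matrices, nonnegative bound -/
def S_isoAlg0 : Prop :=
  ∀ (B : Type) [CStarAlgebra B] [PartialOrder B] [StarOrderedRing B] (f : B → B → ℂ) (C : ℝ),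
    0 ≤ C → IsFormB f C → ∀ n : ℂ,
    (∀ V ∈ unitary (CStarMatrix (Fin 2) (Fin 2) B), ∑ i, ∑ j, f (V i j) (V i j) = 2 * n) →
    (∀ v ∈ unitary B, f v v = n) ∧
    ∃ lam mu : unitary B → (B →L[ℂ] ℂ), (∀ a, ‖lam a‖ ≤ 2 * C) ∧ (∀ a, ‖mu a‖ ≤ 2 * C) ∧
      (∀ (a : unitary B) (y y' : B),
        f ((a : B) * y) ((a : B) * y') = f y y' + lam a (y' * star y)) ∧
      (∀ (c : unitary B) (y y' : B),
        f (y * (c : B)) (y' * (c : B)) = f y y' + mu c (star y * y'))

theorem isoN0 (hr : S_real) (hA : S_isoAlg0) (hG : S_isoGT) (hd : S_doubling) : S_isoN := by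
  intro B _ _ _ τ hτ E hE f C hf n hV
  haveI : Nontrivial B := by
    by_contra h
    rw [not_nontrivial_iff_subsingleton] at h
    have h1 := hτ.one
    rw [Subsingleton.elim (1 : B) 0, map_zero] at h1
    exact zero_ne_one h1
  have hC : 0 ≤ C := by
    have h1 := hf.bd 1 1
    rw [CStarRing.norm_one, mul_one, mul_one] at h1
    exact (norm_nonneg _).trans h1
  obtain ⟨hv, lam, mu, hlb, hmb, hL, hR⟩ := hA B f C hC hf n hV
  have hv' : ∀ v : unitary B, f v v = n := fun v => hv v v.2
  have hv1 : f 1 1 = n := by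
    have := hv' 1
    simpa using this
  have hss : ∀ a : unitary B, star (a : B) * (a : B) = 1 := fun a => Unitary.coe_star_mul_self a
  have hss' : ∀ a : unitary B, (a : B) * star (a : B) = 1 := fun a => Unitary.coe_mul_star_self a
  have hlam1 : ∀ a, lam a 1 = 0 := by
    intro a
    have h1 := hL a 1 1
    rw [mul_one, star_one, mul_one, hv', hv1] at h1
    exact (left_eq_add.1 h1)
  have hmu1 : ∀ a, mu a 1 = 0 := by
    intro a
    have h1 := hR a 1 1
    rw [one_mul, star_one, mul_one, hv', hv1] at h1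
    exact (left_eq_add.1 h1)
  obtain ⟨lb, hlbd⟩ : ∃ lb : B →L[ℂ] ℂ, lb = avg E lam (2 * C) hlb := ⟨_, rfl⟩
  obtain ⟨mb, hmbd⟩ : ∃ mb : B →L[ℂ] ℂ, mb = avg E mu (2 * C) hmb := ⟨_, rfl⟩
  have hlbE : ∀ z, lb z = E.E (fun a => lam a z) := fun z => by rw [hlbd]; rfl
  have hmbE : ∀ z, mb z = E.E (fun a => mu a z) := fun z => by rw [hmbd]; rfl
  have hlbn : ‖lb‖ ≤ 2 * C := by
    rw [hlbd]
    exact avg_norm E lam (2 * C) (by positivity) hlb
  have hmbn : ‖mb‖ ≤ 2 * C := by
    rw [hmbd]
    exact avg_norm E mu (2 * C) (by positivity) hmb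
  have hlb1 : lb 1 = 0 := by
    rw [hlbE]
    simp only [hlam1]
    exact E.const 0
  have hmb1 : mb 1 = 0 := by
    rw [hmbE]
    simp only [hmu1]
    exact E.const 0
  obtain ⟨F, hFd⟩ : ∃ F : B → B → ℂ, ∀ y y', F y y' = f y y' + mb (star y * y') +
      lb (y' * star y) := ⟨fun y y' => f y y' + mb (star y * y') + lb (y' * star y),
        fun _ _ => rfl⟩
  have hFE : ∀ y y', E.E (fun h => E.E (fun r => f ((h : B) * y * (r : B))
      ((h : B) * y' * (r : B)))) = F y y' := by
    intro y y'
    have h1 : ∀ h r : unitary B, f ((h : B) * y * (r : B)) ((h : B) * y' * (r : B)) =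
        (f y y' + lam h (y' * star y)) + mu r (star y * y') := by
      intro h r
      rw [hR, hL, star_mul, mul_assoc, ← mul_assoc (star (h : B)), hss, one_mul]
    have h2 : ∀ h : unitary B, E.E (fun r => f ((h : B) * y * (r : B))
        ((h : B) * y' * (r : B))) = (f y y' + mb (star y * y')) + lam h (y' * star y) := by
      intro h
      simp only [h1]
      rw [E.add' (fun _ => f y y' + lam h (y' * star y)) (fun r => mu r (star y * y')), E.const,
        ← hmbE]
      ring
    simp only [h2]
    rw [E.add' (fun _ => f y y' + mb (star y * y')) (fun h => lam h (y' * star y)), E.const,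
      ← hlbE, hFd]
  have hfbd : ∀ (y y' : B) (h r : unitary B),
      ‖f ((h : B) * y * (r : B)) ((h : B) * y' * (r : B))‖ ≤ C * ‖y‖ * ‖y'‖ := by
    intro y y' h r
    have h1 := hf.bd ((h : B) * y * (r : B)) ((h : B) * y' * (r : B))
    rwa [CStarRing.norm_mul_coe_unitary, CStarRing.norm_coe_unitary_mul,
      CStarRing.norm_mul_coe_unitary, CStarRing.norm_coe_unitary_mul] at h1
  have hF : Psd F := by
    refine ⟨?_, ?_, ?_, ?_⟩
    · intro x y z
      rw [hFd, hFd, hFd, hf.add, mul_add, map_add, add_mul, map_add]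
      ring
    · intro c x y
      rw [hFd, hFd, hf.smul, mul_smul_comm, map_smul, smul_mul_assoc, map_smul, smul_eq_mul,
        smul_eq_mul]
      ring
    · intro x y
      rw [← hFE, ← hFE, ← mean_conj hr E _ (C * ‖x‖ * ‖y‖)
        (fun h => E.bd _ _ fun r => hfbd x y h r)]
      congr 1
      ext h
      rw [← mean_conj hr E _ (C * ‖x‖ * ‖y‖) (fun r => hfbd x y h r)]
      congr 1
      ext r
      exact hf.herm _ _
    · intro x
      rw [← hFE]
      exact mean_pos hr E _ (C * ‖x‖ * ‖x‖) (fun h => E.bd _ _ fun r => hfbd x x h r)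
        fun h => mean_pos hr E _ (C * ‖x‖ * ‖x‖) (fun r => hfbd x x h r) fun r => hf.pos _
  have hFn : ∀ v : unitary B, F v v = n := by
    intro v
    rw [hFd, hss, hss', hmb1, hlb1, hv', add_zero, add_zero]
  have hFD : ∀ y, (F y y).re ≤ 6 * C * (τ (star y * y)).re := by
    intro y
    rw [← hFE]
    exact hG B τ hτ E hE f C hf y
  have hinv := left_inv hd B τ hτ E hE.dixl hE.dixr F hF n hFn (6 * C) hFD
    (fun a => lam a + adF lb a - lb) (2 * C + 2 * C + 2 * C) (fun a => by
      refine (norm_sub_le _ _).trans (add_le_add ((norm_add_le _ _).trans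
        (add_le_add (hlb a) ((adF_norm lb a).trans hlbn))) hlbn)) (fun a y y' => by
      rw [hFd, hFd, hL, star_mul, mul_assoc (star y), ← mul_assoc (star (a : B)), hss, one_mul]
      show _ = _ + (lam a (y' * star y) + lb ((a : B) * (y' * star y) * star (a : B)) -
        lb (y' * star y))
      have e1 : (a : B) * y' * (star y * star (a : B)) =
          (a : B) * (y' * star y) * star (a : B) := by
        simp only [mul_assoc]
      rw [e1]
      ring) (fun z => by
      show E.E (fun h => lam h z + lb ((h : B) * z * star (h : B)) - lb z) = 0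
      have e1 : (fun h : unitary B => lam h z + lb ((h : B) * z * star (h : B)) - lb z) =
          fun h : unitary B => lam h z + (lb ((h : B) * z * star (h : B)) + -lb z) := by
        ext h
        ring
      rw [e1, E.add' (fun h : unitary B => lam h z)
        (fun h : unitary B => lb ((h : B) * z * star (h : B)) + -lb z),
        E.add' (fun h : unitary B => lb ((h : B) * z * star (h : B))) (fun _ => -lb z),
        E.const, hE.dixr lb z, hlb1, ← hlbE]
      ring)
  have hFu : ∀ (v : unitary B) (y' : B), F v y' = F 1 (star (v : B) * y') := by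
    intro v y'
    have h1 := hinv (star v) (v : B) y'
    rw [Unitary.coe_star, hss] at h1
    exact h1.symm
  have hFa : ∀ y y', F y y' = F 1 (star y * y') := by
    intro y y'
    refine ext_unitary B (fun y => F y y') (fun y => F 1 (star y * y')) ?_ ?_ ?_ ?_ ?_ y
    · intro x z
      exact hF.add_left x z y'
    · intro c x
      exact hF.smul_left c x y'
    · intro x z
      show F 1 (star (x + z) * y') = F 1 (star x * y') + F 1 (star z * y')
      rw [star_add, add_mul, hF.add]
    · intro c x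
      show F 1 (star (c • x) * y') = conj c * F 1 (star x * y')
      rw [star_smul, smul_mul_assoc, hF.smul]
      rfl
    · intro v
      exact hFu v y'
  refine ⟨fone hf + lb, -lb, ?_, ?_, ?_, ?_⟩
  · have h1 : ‖fone hf‖ ≤ C * ‖(1 : B)‖ :=
      LinearMap.mkContinuous_norm_le _ (by positivity) _
    rw [CStarRing.norm_one, mul_one] at h1
    have h2 := norm_add_le (fone hf) lb
    linarith
  · rw [norm_neg]
    linarith
  · show f 1 1 + lb 1 + -lb 1 = n
    rw [hv1]
    ring
  · intro y y'
    show f y y' = f 1 (star y * y') + lb (star y * y') + -lb (y' * star y)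
    have h1 := hFa y y'
    rw [hFd, hFd, star_one, one_mul, mul_one] at h1
    linear_combination h1

/-- The structure theorem. -/
theorem prove_isoN (hr : S_real) (hA : S_isoAlg) (hG : S_isoGT) (hd : S_doubling) : S_isoN := by
  first
    | exact isoN0 hr hA hG hd
    | exact isoN0 hr (fun B _ _ _ f C _ hf n => hA B f C hf n) hG hd

end Pool.Agent.Y925.D3
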